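import Pool.Agent.W2helper81.BY.Stm

set_option autoImplicit false

namespace Pool.Agent.W2helper74.BY

open Polynomial
open Pool.Agent.W2helper81.BY

theorem CURVE_ok : P_CURVE := by
  intro h1 h2 hBEL hROOTS k _ _ _ _ f hf
  classical
  -- the product of the minimal polynomials of the roots
  set F : ℚ[X] := (f.roots.map (minpoly ℚ)).prod with hF
  have hF0 : F ≠ 0 := by
    rw [hF]
    refine Multiset.prod_ne_zero ?_
    intro h0
    obtain ⟨z, -, hz⟩ := Multiset.mem_map.1 h0
    exact minpoly.ne_zero (Algebra.IsIntegral.isIntegral (R := ℚ) z) hz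
  obtain ⟨β₀, hdeg, hroots, hcrit⟩ := hBEL h1 h2 k F hF0
  set β : k[X] := β₀.map (algebraMap ℚ k) with hβ
  have hinj : Function.Injective (algebraMap ℚ k) := (algebraMap ℚ k).injective
  have hβdeg : 0 < β.natDegree := by
    rw [hβ, natDegree_map_eq_of_injective hinj]; exact hdeg
  have hβ0 : β ≠ 0 := by
    rintro h
    rw [h] at hβdeg
    simp at hβdeg
  set P : k[X] := (X * (X - 1) : k[X]).comp β with hP
  have hPe : ∀ z : k, (aeval z β₀ = 0 ∨ aeval z β₀ = 1) → aeval z P = 0 := by
    intro z hz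
    have he : aeval z β₀ = eval z β := by
      rw [hβ, eval_map_algebraMap]
    rw [he] at hz
    rw [hP, coe_aeval_eq_eval, eval_comp]
    rcases hz with hz | hz <;> rw [hz] <;> simp
  have hA : ∀ z : k, aeval z f = 0 → aeval z P = 0 := by
    intro z hz
    apply hPe z
    apply hroots z
    have hzr : z ∈ f.roots := by
      rw [mem_roots hf]
      simpa [IsRoot, coe_aeval_eq_eval] using hz
    have hd : minpoly ℚ z ∣ F := by
      rw [hF]
      exact Multiset.dvd_prod (Multiset.mem_map_of_mem _ hzr)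
    obtain ⟨q, hq⟩ := hd
    rw [hq, map_mul, minpoly.aeval, zero_mul]
  have hB : ∀ z : k, aeval z (derivative β) = 0 → aeval z P = 0 := by
    intro z hz
    apply hPe z
    apply hcrit z
    rw [hβ, derivative_map, aeval_map_algebraMap] at hz
    exact hz
  have hd0 : derivative β ≠ 0 := by
    intro h
    have := (Polynomial.derivative_eq_zero).1 h
    omega
  obtain ⟨N₁, U, hU⟩ := hROOTS k k f P hf hA
  obtain ⟨N₂, V, hV⟩ := hROOTS k k (derivative β) P hd0 hB
  refine ⟨β, U * P ^ N₂, V * P ^ N₁, N₁ + N₂, ?_, hβdeg, ?_, ?_⟩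
  · exact (leadingCoeff_ne_zero.2 hβ0).isUnit
  · rw [← mul_assoc, ← hV, pow_add, mul_comm]
  · rw [← mul_assoc, ← hU, pow_add]

end Pool.Agent.W2helper74.BY
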